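import Mathlib

set_option autoImplicit false
set_option linter.unusedSectionVars false

open scoped LinearAlgebra.Projectivization

namespace Pool.Agent.Results.MP_5fce70_co.KMArcEquiv

section Defs

variable (F : Type*) [Field F] [Algebra (ZMod 2) F]

/-- The embedding `(x₀, x₁) ↦ (x₀, x₁, 0)` of `F²` into `F³`, with image the plane `X₂ = 0`. -/
def emb : (Fin 2 → F) →ₗ[F] (Fin 3 → F) where
  toFun w := ![w 0, w 1, 0]
  map_add' x y := by
    ext j; fin_cases j <;> simp
  map_smul' a x := by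
    ext j; fin_cases j <;> simp

variable {F}

/-- The `𝔽₂`-linear set `L_U = {⟨u⟩_F : u ∈ U, u ≠ 0}` in the projective space `PG(V, F)`. -/
def linearSet {V : Type*} [AddCommGroup V] [Module F V] [Module (ZMod 2) V]
    (U : Submodule (ZMod 2) V) : Set (ℙ F V) :=
  {P | ∃ (u : V) (hu : u ≠ 0), u ∈ U ∧ P = Projectivization.mk F u hu}

/-- The weight `dim_{𝔽₂} (U ∩ ⟨w⟩_F)` of the point `P = ⟨w⟩_F` with respect to `U`. -/
noncomputable def weight {V : Type*} [AddCommGroup V] [Module F V] [Module (ZMod 2) V]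
    [IsScalarTower (ZMod 2) F V] (U : Submodule (ZMod 2) V) (P : ℙ F V) : ℕ :=
  Module.finrank (ZMod 2)
    (U ⊓ P.submodule.restrictScalars (ZMod 2) : Submodule (ZMod 2) V)

/-- `U` is an `𝔽₂`-subspace of `F²` of rank `n` which defines an `i`-club: one point of `L_U`
has weight `i`, and every other point of `L_U` has weight `1`. -/
def IsClub (n i : ℕ) (U : Submodule (ZMod 2) (Fin 2 → F)) : Prop :=
  Module.finrank (ZMod 2) U = n ∧
    ∃ P ∈ linearSet (F := F) U, weight U P = i ∧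
      ∀ Q ∈ linearSet (F := F) U, Q ≠ P → weight U Q = 1

/-- The line `ℓ : X₂ = 0` of `PG(2, F)`. -/
def line : Set (ℙ F (Fin 3 → F)) :=
  {P | ∀ x ∈ P.submodule, x 2 = 0}

/-- The point set `𝒜(U, v) = (L_{U'} \ ℓ) ∪ (ℓ \ L_U)`, where `U' = U ⊕ ⟨v⟩_{𝔽₂}` and `U` is
regarded as a subspace of the plane `X₂ = 0` of `F³`. -/
def kmArc (U : Submodule (ZMod 2) (Fin 2 → F)) (v : Fin 3 → F) : Set (ℙ F (Fin 3 → F)) :=
  (linearSet (U.map ((emb F).restrictScalars (ZMod 2)) ⊔ Submodule.span (ZMod 2) {v}) \ line) ∪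
    (line \ linearSet (U.map ((emb F).restrictScalars (ZMod 2))))

/-- `U₁` and `U₂` are `ΓL(2, F)`-equivalent: some bijective semilinear map of `F²` maps `U₁`
onto `U₂`. -/
def GammaLEquivalent (U₁ U₂ : Submodule (ZMod 2) (Fin 2 → F)) : Prop :=
  ∃ (σ : F ≃+* F) (f : (Fin 2 → F) →ₛₗ[(σ : F →+* F)] (Fin 2 → F)),
    Function.Bijective f ∧ f '' (U₁ : Set (Fin 2 → F)) = (U₂ : Set (Fin 2 → F))

/-- Two point sets of `PG(2, F)` are `PΓL(3, F)`-equivalent: the collineation induced by some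
bijective semilinear map of `F³` maps one onto the other. -/
def PGammaLEquivalent (A B : Set (ℙ F (Fin 3 → F))) : Prop :=
  ∃ (σ : F ≃+* F) (f : (Fin 3 → F) →ₛₗ[(σ : F →+* F)] (Fin 3 → F)) (hf : Function.Bijective f),
    Projectivization.map f hf.injective '' A = B

end Defs

section Basic

variable {F : Type*} [Field F] [Algebra (ZMod 2) F]

@[simp] lemma emb_zero (w : Fin 2 → F) : emb F w 0 = w 0 := rfl
@[simp] lemma emb_one (w : Fin 2 → F) : emb F w 1 = w 1 := rfl
@[simp] lemma emb_two (w : Fin 2 → F) : emb F w 2 = 0 := rfl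

lemma emb_injective : Function.Injective (emb F) := by
  intro x y h
  ext j
  fin_cases j
  · exact congrFun h 0
  · exact congrFun h 1

lemma exists_emb {x : Fin 3 → F} (hx : x 2 = 0) : ∃ w : Fin 2 → F, emb F w = x := by
  refine ⟨![x 0, x 1], ?_⟩
  ext j
  fin_cases j
  · simp
  · simp
  · simp [hx]

/-- Vector form of membership in `𝒜(U, v)`. -/
def Mem (U : Submodule (ZMod 2) (Fin 2 → F)) (v x : Fin 3 → F) : Prop :=
  (∃ a : F, a ≠ 0 ∧ ∃ u ∈ U, a • x = emb F u + v) ∨
    (x ≠ 0 ∧ x 2 = 0 ∧ ∀ a : F, a ≠ 0 → ∀ u ∈ U, a • x ≠ emb F u)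

lemma mk_mem_linearSet {V : Type*} [AddCommGroup V] [Module F V] [Module (ZMod 2) V]
    (U : Submodule (ZMod 2) V) (x : V) (hx : x ≠ 0) :
    Projectivization.mk F x hx ∈ linearSet (F := F) U ↔ ∃ a : F, a ≠ 0 ∧ a • x ∈ U := by
  constructor
  · rintro ⟨u, hu, huU, h⟩
    rw [Projectivization.mk_eq_mk_iff] at h
    obtain ⟨a, ha⟩ := h
    refine ⟨(a⁻¹ : Fˣ), Units.ne_zero _, ?_⟩
    have : ((a⁻¹ : Fˣ) : F) • x = u := by
      rw [← ha, ← Units.smul_def, smul_smul, inv_mul_cancel, one_smul]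
    rw [this]; exact huU
  · rintro ⟨a, ha, h⟩
    refine ⟨a • x, smul_ne_zero ha hx, h, ?_⟩
    rw [Projectivization.mk_eq_mk_iff']
    exact ⟨a⁻¹, by rw [smul_smul, inv_mul_cancel₀ ha, one_smul]⟩

lemma mk_mem_line (x : Fin 3 → F) (hx : x ≠ 0) :
    Projectivization.mk F x hx ∈ line (F := F) ↔ x 2 = 0 := by
  constructor
  · intro h
    exact h x (by rw [Projectivization.submodule_mk]; exact Submodule.mem_span_singleton_self x)
  · intro h y hy
    rw [Projectivization.submodule_mk, Submodule.mem_span_singleton] at hy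
    obtain ⟨a, rfl⟩ := hy
    simp [h]

lemma mem_map_emb (U : Submodule (ZMod 2) (Fin 2 → F)) (y : Fin 3 → F) :
    y ∈ U.map ((emb F).restrictScalars (ZMod 2)) ↔ ∃ u ∈ U, y = emb F u := by
  rw [Submodule.mem_map]
  constructor
  · rintro ⟨u, hu, rfl⟩; exact ⟨u, hu, rfl⟩
  · rintro ⟨u, hu, rfl⟩; exact ⟨u, hu, rfl⟩

lemma mem_kmArc (U : Submodule (ZMod 2) (Fin 2 → F)) (v : Fin 3 → F) (hv : v 2 ≠ 0)
    (x : Fin 3 → F) (hx : x ≠ 0) :
    Projectivization.mk F x hx ∈ kmArc U v ↔ Mem U v x := by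
  unfold kmArc Mem
  rw [Set.mem_union, Set.mem_sdiff, Set.mem_sdiff, mk_mem_line, mk_mem_linearSet, mk_mem_linearSet]
  apply or_congr
  · constructor
    · rintro ⟨⟨a, ha, h⟩, h2⟩
      rw [Submodule.mem_sup] at h
      obtain ⟨y, hy, z, hz, hyz⟩ := h
      rw [mem_map_emb] at hy
      obtain ⟨u, hu, rfl⟩ := hy
      rw [Submodule.mem_span_singleton] at hz
      obtain ⟨c, rfl⟩ := hz
      have hc : c = 0 ∨ c = 1 := by
        fin_cases c
        · left; rfl
        · right; rfl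
      rcases hc with rfl | rfl
      · exfalso
        rw [zero_smul, add_zero] at hyz
        have := congrFun hyz 2
        simp only [emb_two, Pi.smul_apply, smul_eq_mul] at this
        rcases mul_eq_zero.1 this.symm with h | h
        · exact ha h
        · exact h2 h
      · rw [one_smul] at hyz
        exact ⟨a, ha, u, hu, hyz.symm⟩
    · rintro ⟨a, ha, u, hu, h⟩
      refine ⟨⟨a, ha, ?_⟩, ?_⟩
      · rw [h]
        refine Submodule.add_mem_sup ?_ (Submodule.mem_span_singleton_self v)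
        rw [mem_map_emb]; exact ⟨u, hu, rfl⟩
      · intro h2
        have := congrFun h 2
        simp only [Pi.add_apply, emb_two, Pi.smul_apply, smul_eq_mul, h2, mul_zero, zero_add] at this
        exact hv this.symm
  · constructor
    · rintro ⟨h2, h⟩
      refine ⟨hx, h2, ?_⟩
      intro a ha u hu hau
      apply h
      refine ⟨a, ha, ?_⟩
      rw [mem_map_emb]; exact ⟨u, hu, hau⟩
    · rintro ⟨-, h2, h⟩
      refine ⟨h2, ?_⟩
      rintro ⟨a, ha, hm⟩
      rw [mem_map_emb] at hm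
      obtain ⟨u, hu, hau⟩ := hm
      exact h a ha u hu hau

lemma Mem.ne_zero {U : Submodule (ZMod 2) (Fin 2 → F)} {v x : Fin 3 → F} (hv : v 2 ≠ 0)
    (h : Mem U v x) : x ≠ 0 := by
  rcases h with ⟨a, ha, u, hu, h⟩ | h
  · rintro rfl
    have := congrFun h 2
    simp at this
    exact hv this.symm
  · exact h.1

/-- If `x` is not on the line then membership is affine membership. -/
lemma Mem.affine {U : Submodule (ZMod 2) (Fin 2 → F)} {v x : Fin 3 → F} 
    (h : Mem U v x) (h2 : x 2 ≠ 0) : ∃ a : F, a ≠ 0 ∧ ∃ u ∈ U, a • x = emb F u + v := by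
  rcases h with h | h
  · exact h
  · exact absurd h.2.1 h2

/-- The elation `x ↦ x + (x₂ / v₂) d`. -/
def elat (v : Fin 3 → F) (d : Fin 2 → F) (x : Fin 3 → F) : Fin 3 → F :=
  x + (x 2 / v 2) • emb F d

lemma elat_two (v : Fin 3 → F) (d : Fin 2 → F) (x : Fin 3 → F) : elat v d x 2 = x 2 := by
  simp [elat]

lemma elat_add (v : Fin 3 → F) (d : Fin 2 → F) (x y : Fin 3 → F) :
    elat v d (x + y) = elat v d x + elat v d y := by
  unfold elat
  rw [Pi.add_apply, add_div, add_smul]; abel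

lemma elat_smul (v : Fin 3 → F) (d : Fin 2 → F) (a : F) (x : Fin 3 → F) :
    elat v d (a • x) = a • elat v d x := by
  unfold elat
  rw [Pi.smul_apply, smul_eq_mul, smul_add, smul_smul, mul_div_assoc]

lemma elat_neg_elat (v : Fin 3 → F) (d : Fin 2 → F) (x : Fin 3 → F) :
    elat v (-d) (elat v d x) = x := by
  rw [elat, elat_two, elat, map_neg, smul_neg, add_neg_cancel_right]

lemma elat_elat_neg (v : Fin 3 → F) (d : Fin 2 → F) (x : Fin 3 → F) :
    elat v d (elat v (-d) x) = x := by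
  rw [elat, elat_two, elat, map_neg, smul_neg, neg_add_cancel_right]

lemma elat_of_two_eq_zero (v : Fin 3 → F) (d : Fin 2 → F) {x : Fin 3 → F} (hx : x 2 = 0) :
    elat v d x = x := by
  simp [elat, hx]

lemma Mem.elat {U : Submodule (ZMod 2) (Fin 2 → F)} {v x : Fin 3 → F} (hv : v 2 ≠ 0)
    {d : Fin 2 → F} (hd : d ∈ U) (h : Mem U v x) : Mem U v (elat v d x) := by
  rcases h with ⟨a, ha, u, hu, h⟩ | h
  · left
    refine ⟨a, ha, u + d, U.add_mem hu hd, ?_⟩
    have h2 : a * x 2 = v 2 := by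
      have := congrFun h 2
      simpa using this
    rw [← elat_smul]
    unfold KMArcEquiv.elat
    rw [Pi.smul_apply, smul_eq_mul, h2, div_self hv, one_smul, h, map_add]
    abel
  · right
    rw [elat_of_two_eq_zero v d h.2.1]; exact h

end Basic

section Main

variable {F : Type*} [Field F] [Fintype F] [Algebra (ZMod 2) F]

/-- Counting: if `U` has at most `|F|` elements, then for each nonzero `m` there is a point of
the line at infinity which is different from `⟨m⟩` and not in `L_U`. -/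
lemma exists_point (U : Submodule (ZMod 2) (Fin 2 → F))
    (hU : Nat.card U = Nat.card F) (m : Fin 2 → F) (hm : m ≠ 0) :
    ∃ w : Fin 2 → F, w ≠ 0 ∧ (∀ a : F, a • m ≠ w) ∧ ∀ a : F, a ≠ 0 → ∀ u ∈ U, a • w ≠ u := by
  classical
  by_contra hcon
  push Not at hcon
  let f : U → ℙ F (Fin 2 → F) := fun u =>
    if h : (u : Fin 2 → F) = 0 then Projectivization.mk F m hm else Projectivization.mk F u h
  have hsurj : Function.Surjective f := by
    intro P
    induction P using Projectivization.ind with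
    | h w hw =>
      by_cases hmw : ∃ a : F, a • m = w
      · obtain ⟨a, rfl⟩ := hmw
        refine ⟨0, ?_⟩
        have : f 0 = Projectivization.mk F m hm := by simp [f]
        rw [this, Projectivization.mk_eq_mk_iff']
        have ha : a ≠ 0 := by rintro rfl; simp at hw
        exact ⟨a⁻¹, by rw [smul_smul, inv_mul_cancel₀ ha, one_smul]⟩
      · push Not at hmw
        obtain ⟨a, ha, u, hu, hau⟩ := hcon w hw hmw
        refine ⟨⟨u, hu⟩, ?_⟩
        have hu0 : u ≠ 0 := by rw [← hau]; exact smul_ne_zero ha hw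
        have : f ⟨u, hu⟩ = Projectivization.mk F u hu0 := by simp [f, hu0]
        rw [this, Projectivization.mk_eq_mk_iff']
        exact ⟨a, hau⟩
  have hcard := Nat.card_le_card_of_surjective f hsurj
  rw [Projectivization.card_of_finrank_two F (Fin 2 → F) (by simp), hU] at hcard
  omega

/-- A bijective `σ`-semilinear map, in unbundled form. -/
structure SL (σ : F ≃+* F) (g : (Fin 3 → F) → (Fin 3 → F)) : Prop where
  bij : Function.Bijective g
  add : ∀ x y, g (x + y) = g x + g y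
  smul : ∀ (a : F) x, g (a • x) = σ a • g x

lemma SL.zero {σ : F ≃+* F} {g : (Fin 3 → F) → (Fin 3 → F)} (h : SL σ g) : g 0 = 0 := by
  have := h.smul 0 0
  rw [zero_smul, map_zero, zero_smul] at this
  exact this

/-- The case of a collineation which fixes the line `X₂ = 0`. -/
lemma final {U₁ U₂ : Submodule (ZMod 2) (Fin 2 → F)} {v₁ v₂ : Fin 3 → F}
    (hcard : Nat.card U₁ = Nat.card U₂) (hv₁ : v₁ 2 ≠ 0) (hv₂ : v₂ 2 ≠ 0)
    {σ : F ≃+* F} {g : (Fin 3 → F) → (Fin 3 → F)} (hg : SL σ g)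
    (hH : ∀ x, x 2 = 0 → g x 2 = 0) (hM : ∀ x, Mem U₁ v₁ x → Mem U₂ v₂ (g x)) :
    GammaLEquivalent U₁ U₂ := by
  classical
  -- `g` maps the plane `X₂ = 0` onto itself
  have hH' : ∀ x, g x 2 = 0 → x 2 = 0 := by
    let S := {x : Fin 3 → F // x 2 = 0}
    let k : S → S := fun x => ⟨g x.1, hH x.1 x.2⟩
    have hk : Function.Injective k := by
      intro x y hxy
      apply Subtype.ext
      apply hg.bij.injective
      exact congrArg Subtype.val hxy
    have hk' : Function.Surjective k := Finite.surjective_of_injective hk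
    intro x hx
    obtain ⟨y, hy⟩ := hk' ⟨g x, hx⟩
    have : g y.1 = g x := congrArg Subtype.val hy
    rw [← hg.bij.injective this]; exact y.2
  have hd : g v₁ 2 ≠ 0 := fun h => hv₁ (hH' _ h)
  set lam : F := v₂ 2 / g v₁ 2 with hlam
  have hlam0 : lam ≠ 0 := div_ne_zero hv₂ hd
  have key : ∀ u ∈ U₁, ∃ u' ∈ U₂, lam • g (emb F u + v₁) = emb F u' + v₂ := by
    intro u hu
    have h1 : Mem U₁ v₁ (emb F u + v₁) := Or.inl ⟨1, one_ne_zero, u, hu, one_smul _ _⟩
    have h3 : g (emb F u + v₁) 2 = g v₁ 2 := by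
      rw [hg.add, Pi.add_apply, hH _ (emb_two u), zero_add]
    obtain ⟨a, ha, u', hu', h⟩ := (hM _ h1).affine (by rw [h3]; exact hd)
    have ha' : a = lam := by
      have := congrFun h 2
      simp only [Pi.smul_apply, smul_eq_mul, Pi.add_apply, emb_two, zero_add, h3] at this
      rw [hlam, ← this, mul_div_cancel_right₀ _ hd]
    rw [ha'] at h
    exact ⟨u', hu', h⟩
  obtain ⟨u₀, hu₀, h₀⟩ := key 0 U₁.zero_mem
  rw [map_zero, zero_add] at h₀
  have key2 : ∀ u ∈ U₁, ∃ u' ∈ U₂, lam • g (emb F u) = emb F u' := by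
    intro u hu
    obtain ⟨u', hu', h⟩ := key u hu
    refine ⟨u' - u₀, U₂.sub_mem hu' hu₀, ?_⟩
    rw [hg.add, smul_add, h₀] at h
    rw [map_sub]
    have : lam • g (emb F u) = emb F u' + v₂ - (emb F u₀ + v₂) := by
      rw [← h]; abel
    rw [this]; abel
  -- the induced map on `F²`
  let G : (Fin 2 → F) →ₛₗ[(σ : F →+* F)] (Fin 2 → F) :=
    { toFun := fun w => ![lam * g (emb F w) 0, lam * g (emb F w) 1]
      map_add' := by
        intro x y
        ext j
        fin_cases j <;> simp [hg.add, mul_add]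
      map_smul' := by
        intro a x
        ext j
        fin_cases j
        · simp only [map_smul, hg.smul, Pi.smul_apply, smul_eq_mul, Fin.zero_eta,
            Matrix.cons_val_zero, RingHom.coe_coe]
          ring
        · simp only [map_smul, hg.smul, Pi.smul_apply, smul_eq_mul, Fin.mk_one,
            Matrix.cons_val_one, Matrix.cons_val_fin_one, RingHom.coe_coe]
          ring }
  have hG : ∀ w, emb F (G w) = lam • g (emb F w) := by
    intro w
    ext j
    fin_cases j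
    · rfl
    · rfl
    · have : g (emb F w) 2 = 0 := hH _ (emb_two w)
      simp [this]
  have hGinj : Function.Injective G := by
    intro x y hxy
    have h1 : lam • g (emb F x) = lam • g (emb F y) := by rw [← hG, ← hG, hxy]
    have h2 : g (emb F x) = g (emb F y) := by
      have := congrArg (fun z => lam⁻¹ • z) h1
      simpa [smul_smul, inv_mul_cancel₀ hlam0] using this
    exact emb_injective (hg.bij.injective h2)
  refine ⟨σ, G, ⟨hGinj, Finite.surjective_of_injective hGinj⟩, ?_⟩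
  -- image of `U₁` is contained in `U₂`, hence equal by cardinality
  have hsub : G '' (U₁ : Set (Fin 2 → F)) ⊆ (U₂ : Set (Fin 2 → F)) := by
    rintro _ ⟨u, hu, rfl⟩
    obtain ⟨u', hu', h⟩ := key2 u hu
    have : G u = u' := emb_injective (by rw [hG, h])
    rw [this]; exact hu'
  apply Set.eq_of_subset_of_ncard_le hsub
  · rw [Set.ncard_image_of_injective _ hGinj]
    have e1 : (U₁ : Set (Fin 2 → F)).ncard = Nat.card U₁ := rfl
    have e2 : (U₂ : Set (Fin 2 → F)).ncard = Nat.card U₂ := rfl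
    rw [e1, e2, hcard]

lemma SL.comp {σ τ : F ≃+* F} {g h : (Fin 3 → F) → (Fin 3 → F)} (hg : SL σ g) (hh : SL τ h) :
    SL (τ.trans σ) (g ∘ h) where
  bij := hg.bij.comp hh.bij
  add x y := by simp [hh.add, hg.add]
  smul a x := by simp [hh.smul, hg.smul]

lemma SL.inv {σ : F ≃+* F} {g g' : (Fin 3 → F) → (Fin 3 → F)} (hg : SL σ g)
    (h1 : ∀ x, g' (g x) = x) (h2 : ∀ x, g (g' x) = x) : SL σ.symm g' where
  bij := ⟨fun x y h => by rw [← h2 x, ← h2 y, h], fun x => ⟨g x, h1 x⟩⟩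
  add x y := hg.bij.injective (by rw [hg.add, h2, h2, h2])
  smul a x := hg.bij.injective (by rw [hg.smul, h2, h2, RingEquiv.apply_symm_apply])

lemma SL.reflect {σ : F ≃+* F} {g : (Fin 3 → F) → (Fin 3 → F)} (hg : SL σ g)
    (hH : ∀ x, x 2 = 0 → g x 2 = 0) : ∀ x, g x 2 = 0 → x 2 = 0 := by
  classical
  let S := {x : Fin 3 → F // x 2 = 0}
  let k : S → S := fun x => ⟨g x.1, hH x.1 x.2⟩
  have hk : Function.Injective k := by
    intro x y hxy
    apply Subtype.ext
    apply hg.bij.injective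
    exact congrArg Subtype.val hxy
  have hk' : Function.Surjective k := Finite.surjective_of_injective hk
  intro x hx
  obtain ⟨y, hy⟩ := hk' ⟨g x, hx⟩
  have : g y.1 = g x := congrArg Subtype.val hy
  rw [← hg.bij.injective this]; exact y.2

lemma elat_SL (v : Fin 3 → F) (d : Fin 2 → F) : SL (RingEquiv.refl F) (elat v d) where
  bij := ⟨fun x y h => by rw [← elat_neg_elat v d x, ← elat_neg_elat v d y, h],
    fun x => ⟨elat v (-d) x, elat_elat_neg v d x⟩⟩
  add := elat_add v d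
  smul a x := elat_smul v d a x

/-- The linear functional `x ↦ σ⁻¹ ((g x)₂)` restricted to the plane `X₂ = 0`. -/
def fn {σ : F ≃+* F} {g : (Fin 3 → F) → (Fin 3 → F)} (hg : SL σ g) : (Fin 2 → F) →ₗ[F] F where
  toFun w := σ.symm (g (emb F w) 2)
  map_add' x y := by simp [hg.add]
  map_smul' a x := by simp [hg.smul]

lemma fn_eq_zero {σ : F ≃+* F} {g : (Fin 3 → F) → (Fin 3 → F)} (hg : SL σ g) (w : Fin 2 → F) :
    fn hg w = 0 ↔ g (emb F w) 2 = 0 := by
  change σ.symm (g (emb F w) 2) = 0 ↔ _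
  exact EmbeddingLike.map_eq_zero_iff

/-- A point of `𝒜(U, v)` on the line `X₂ = 0` and not on the line mapped to it by `g`. -/
lemma exists_inf {σ : F ≃+* F} {g : (Fin 3 → F) → (Fin 3 → F)} (hg : SL σ g)
    (hnot : ∃ x : Fin 3 → F, x 2 = 0 ∧ g x 2 ≠ 0) (U : Submodule (ZMod 2) (Fin 2 → F))
    (hU : Nat.card U = Nat.card F) (v : Fin 3 → F) :
    ∃ x, x 2 = 0 ∧ g x 2 ≠ 0 ∧ Mem U v x := by
  obtain ⟨x₀, hx₀, hgx₀⟩ := hnot
  obtain ⟨w₀, rfl⟩ := exists_emb hx₀
  have hne : fn hg ≠ 0 := by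
    intro h
    apply hgx₀
    rw [← fn_eq_zero hg, h]; rfl
  have hker := LinearMap.ker_ne_bot_of_finrank_lt (f := fn hg) (by simp)
  obtain ⟨m, hm, hm0⟩ := Submodule.exists_mem_ne_zero_of_ne_bot hker
  obtain ⟨w, hw0, hw1, hw2⟩ := exists_point U hU m hm0
  refine ⟨emb F w, emb_two w, ?_, Or.inr ⟨?_, emb_two w, ?_⟩⟩
  · intro hcon
    rw [← fn_eq_zero hg] at hcon
    have hrank : Module.finrank F (LinearMap.ker (fn hg)) = 1 := by
      have := Module.Dual.finrank_ker_add_one_of_ne_zero (f := fn hg) hne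
      simp at this
      omega
    have hm' : (⟨m, hm⟩ : LinearMap.ker (fn hg)) ≠ 0 := by
      intro h; exact hm0 (congrArg Subtype.val h)
    obtain ⟨c, hc⟩ := (finrank_eq_one_iff_of_nonzero' _ hm').1 hrank ⟨w, hcon⟩
    exact hw1 c (congrArg Subtype.val hc)
  · intro h
    exact hw0 (emb_injective (by rw [h, map_zero]))
  · intro a ha u hu h
    rw [← map_smul] at h
    exact hw2 a ha u hu (emb_injective h)

/-- The main case: the collineation need not fix the line `X₂ = 0`. -/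
lemma main {U₁ U₂ : Submodule (ZMod 2) (Fin 2 → F)} {v₁ v₂ : Fin 3 → F}
    (hc₁ : Nat.card U₁ = Nat.card F) (hc₂ : Nat.card U₂ = Nat.card F)
    (hspan : Submodule.span F (U₁ : Set (Fin 2 → F)) = ⊤)
    (hv₁ : v₁ 2 ≠ 0) (hv₂ : v₂ 2 ≠ 0)
    {σ : F ≃+* F} {g : (Fin 3 → F) → (Fin 3 → F)} (hg : SL σ g)
    (hM : ∀ x, Mem U₁ v₁ x ↔ Mem U₂ v₂ (g x)) :
    GammaLEquivalent U₁ U₂ := by
  classical
  by_cases hH : ∀ x, x 2 = 0 → g x 2 = 0
  · exact final (by rw [hc₁, hc₂]) hv₁ hv₂ hg hH (fun x => (hM x).1)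
  push Not at hH
  -- the inverse of `g`
  let e := Equiv.ofBijective g hg.bij
  obtain ⟨g', hg'⟩ : ∃ g' : (Fin 3 → F) → (Fin 3 → F), g' = e.symm := ⟨_, rfl⟩
  have h1 : ∀ x, g' (g x) = x := by
    intro x; rw [hg']; exact e.symm_apply_apply x
  have h2 : ∀ x, g (g' x) = x := by
    intro x; rw [hg']; exact e.apply_symm_apply x
  have hinv := hg.inv h1 h2
  -- the auxiliary points
  obtain ⟨p, hp, hgp, hMp⟩ := exists_inf hg hH U₁ hc₁ v₁
  have hnot' : ∃ y : Fin 3 → F, y 2 = 0 ∧ g' y 2 ≠ 0 := by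
    by_contra hcon
    push Not at hcon
    have := hinv.reflect hcon
    obtain ⟨x, hx, hgx⟩ := hH
    exact hgx (this (g x) (by rw [h1]; exact hx))
  obtain ⟨y, hy, hgy, hMy⟩ := exists_inf hinv hnot' U₂ hc₂ v₂
  have hMp' : Mem U₁ v₁ (g' y) := by rw [hM, h2]; exact hMy
  -- a point off both lines
  have hr : ∃ u ∈ U₁, g (emb F u + v₁) 2 ≠ 0 := by
    by_contra hcon
    push Not at hcon
    have hv : g v₁ 2 = 0 := by
      have := hcon 0 U₁.zero_mem
      rwa [map_zero, zero_add] at this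
    have hu : ∀ u ∈ U₁, fn hg u = 0 := by
      intro u hu
      rw [fn_eq_zero]
      have := hcon u hu
      rwa [hg.add, Pi.add_apply, hv, add_zero] at this
    have hfn : fn hg = 0 := by
      apply LinearMap.ext_on hspan
      intro u hu'
      rw [hu u hu']; rfl
    obtain ⟨x, hx, hgx⟩ := hH
    obtain ⟨w, rfl⟩ := exists_emb hx
    apply hgx
    rw [← fn_eq_zero hg, hfn]; rfl
  obtain ⟨ur, hur, hgr⟩ := hr
  set r : Fin 3 → F := emb F ur + v₁ with hrdef
  have hMr : Mem U₁ v₁ r := Or.inl ⟨1, one_ne_zero, ur, hur, one_smul _ _⟩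
  -- the elation with axis `g⁻¹(ℓ)`
  obtain ⟨a, ha, u, hu, hau⟩ := ((hM p).1 hMp).affine hgp
  obtain ⟨b, hb, u', hu', hbu'⟩ := ((hM r).1 hMr).affine hgr
  obtain ⟨a', ha', u₁, hu₁, hau₁⟩ := hMp'.affine hgy
  have step1 : elat v₂ (u' - u) (g p) = (a⁻¹ * b) • g r := by
    have h3 : elat v₂ (u' - u) (a • g p) = b • g r := by
      unfold elat
      rw [hau, hbu', Pi.add_apply, emb_two, zero_add, div_self hv₂, one_smul, map_sub]
      abel
    rw [elat_smul] at h3
    rw [mul_smul, ← h3, smul_smul, inv_mul_cancel₀ ha, one_smul]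
  have step2 : elat v₁ (-(ur - u₁)) r = a' • g' y := by
    unfold elat
    rw [hau₁, hrdef, Pi.add_apply, emb_two, zero_add, div_self hv₁, one_smul, map_neg, map_sub]
    abel
  -- the new collineation
  let ψ : (Fin 3 → F) → (Fin 3 → F) :=
    g ∘ elat v₁ (-(ur - u₁)) ∘ g' ∘ elat v₂ (u' - u) ∘ g
  have hψ : SL σ ψ := by
    have h3 := hg.comp ((elat_SL v₁ (-(ur - u₁))).comp
      (hinv.comp ((elat_SL v₂ (u' - u)).comp hg)))
    refine ⟨h3.bij, h3.add, ?_⟩
    intro c x
    change g (elat v₁ (-(ur - u₁)) (g' (elat v₂ (u' - u) (g (c • x))))) =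
      σ c • g (elat v₁ (-(ur - u₁)) (g' (elat v₂ (u' - u) (g x))))
    rw [hg.smul, elat_smul, hinv.smul, σ.symm_apply_apply, elat_smul, hg.smul]
  have hψM : ∀ x, Mem U₁ v₁ x → Mem U₂ v₂ (ψ x) := by
    intro x hx
    have m1 := (hM x).1 hx
    have m2 := m1.elat hv₂ (U₂.sub_mem hu' hu)
    have m3 : Mem U₁ v₁ (g' (elat v₂ (u' - u) (g x))) := by rw [hM, h2]; exact m2
    have m4 := m3.elat hv₁ (U₁.neg_mem (U₁.sub_mem hur hu₁))
    exact (hM _).1 m4
  have hψp : ψ p 2 = 0 := by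
    have : ψ p = g (elat v₁ (-(ur - u₁)) (g' (elat v₂ (u' - u) (g p)))) := rfl
    rw [this, step1, hinv.smul, h1, elat_smul, step2, smul_smul, hg.smul, h2, Pi.smul_apply, hy,
      smul_zero]
  have hψz : ∀ z, z 2 = 0 → g z 2 = 0 → ψ z 2 = 0 := by
    intro z hz hgz
    have : ψ z = g (elat v₁ (-(ur - u₁)) (g' (elat v₂ (u' - u) (g z)))) := rfl
    rw [this, elat_of_two_eq_zero _ _ hgz, h1, elat_of_two_eq_zero _ _ hz, hgz]
  have hψH : ∀ x, x 2 = 0 → ψ x 2 = 0 := by
    intro x hx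
    let t : F := σ.symm (g x 2 / g p 2)
    have ht : σ t = g x 2 / g p 2 := σ.apply_symm_apply _
    have hz2 : (x - t • p) 2 = 0 := by simp [hx, hp]
    have hz : ψ (x - t • p) 2 = 0 := by
      apply hψz _ hz2
      have h3 : g (x - t • p) = g x - σ t • g p := by
        have : g x = g (x - t • p) + g (t • p) := by rw [← hg.add, sub_add_cancel]
        rw [this, hg.smul, add_sub_cancel_right]
      rw [h3, Pi.sub_apply, Pi.smul_apply, smul_eq_mul, ht, div_mul_cancel₀ _ hgp, sub_self]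
    have h4 : ψ x = ψ (x - t • p) + σ t • ψ p := by
      rw [← hψ.smul, ← hψ.add, sub_add_cancel]
    rw [h4, Pi.add_apply, Pi.smul_apply, hz, hψp, smul_zero, add_zero]
  exact final (by rw [hc₁, hc₂]) hv₁ hv₂ hψ hψH hψM

/-- A club which spans only an `F`-line is an `n`-club. -/
lemma IsClub.eq_of_span_ne_top {n i : ℕ} {U : Submodule (ZMod 2) (Fin 2 → F)}
    (hU : IsClub n i U) (h : Submodule.span F (U : Set (Fin 2 → F)) ≠ ⊤) : i = n := by
  obtain ⟨hn, P, ⟨u₀, hu₀, hu₀U, rfl⟩, hi, -⟩ := hU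
  rw [← hi, ← hn]
  unfold weight
  have hle : U ≤ (Projectivization.mk F u₀ hu₀).submodule.restrictScalars (ZMod 2) := by
    have hlt : Module.finrank F (Submodule.span F (U : Set (Fin 2 → F))) < 2 := by
      have := Submodule.finrank_lt h
      simpa using this
    have hu₀S : u₀ ∈ Submodule.span F (U : Set (Fin 2 → F)) := Submodule.subset_span hu₀U
    intro u hu
    have huS : u ∈ Submodule.span F (U : Set (Fin 2 → F)) := Submodule.subset_span hu
    have hne : (⟨u₀, hu₀S⟩ : Submodule.span F (U : Set (Fin 2 → F))) ≠ 0 := by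
      intro h; exact hu₀ (congrArg Subtype.val h)
    have h1 : Module.finrank F (Submodule.span F (U : Set (Fin 2 → F))) = 1 := by
      have : 0 < Module.finrank F (Submodule.span F (U : Set (Fin 2 → F))) :=
        Module.finrank_pos_iff_exists_ne_zero.2 ⟨_, hne⟩
      omega
    obtain ⟨c, hc⟩ := (finrank_eq_one_iff_of_nonzero' _ hne).1 h1 ⟨u, huS⟩
    have hc' : c • u₀ = u := congrArg Subtype.val hc
    rw [Submodule.restrictScalars_mem, Projectivization.submodule_mk, ← hc']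
    exact Submodule.smul_mem _ _ (Submodule.mem_span_singleton_self _)
  rw [inf_eq_left.2 hle]

/-- An `n`-club of rank `n` is an `F`-line, if `|F| = 2 ^ n`. -/
lemma IsClub.eq_submodule {n : ℕ} (hF : Fintype.card F = 2 ^ n)
    {U : Submodule (ZMod 2) (Fin 2 → F)} (hU : IsClub n n U) :
    ∃ P : ℙ F (Fin 2 → F), (U : Set (Fin 2 → F)) = P.submodule := by
  obtain ⟨hn, P, -, hi, -⟩ := hU
  refine ⟨P, ?_⟩
  have h1 : U ⊓ P.submodule.restrictScalars (ZMod 2) = U := by
    apply Submodule.eq_of_le_of_finrank_eq inf_le_left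
    rw [hn]; exact hi
  have hle : U ≤ P.submodule.restrictScalars (ZMod 2) := inf_eq_left.1 h1
  apply Set.eq_of_subset_of_ncard_le (s := (U : Set (Fin 2 → F)))
    (t := (P.submodule : Set (Fin 2 → F))) (fun x hx => hle hx)
  have e1 : (U : Set (Fin 2 → F)).ncard = Nat.card U := rfl
  have e2 : (P.submodule : Set (Fin 2 → F)).ncard = Nat.card P.submodule := rfl
  rw [e1, e2, Module.natCard_eq_pow_finrank (K := ZMod 2) (V := U),
    Module.natCard_eq_pow_finrank (K := F) (V := P.submodule), hn, P.finrank_submodule, pow_one,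
    Nat.card_eq_fintype_card, Nat.card_eq_fintype_card, hF, ZMod.card]

lemma gammaL_of_lines {U₁ U₂ : Submodule (ZMod 2) (Fin 2 → F)} {P₁ P₂ : ℙ F (Fin 2 → F)}
    (h₁ : (U₁ : Set (Fin 2 → F)) = P₁.submodule) (h₂ : (U₂ : Set (Fin 2 → F)) = P₂.submodule) :
    GammaLEquivalent U₁ U₂ := by
  have e : P₁.submodule ≃ₗ[F] P₂.submodule :=
    LinearEquiv.ofFinrankEq _ _ (by rw [P₁.finrank_submodule, P₂.finrank_submodule])
  obtain ⟨g, hg⟩ := Submodule.exists_linearEquiv_restrict_eq e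
  refine ⟨RingEquiv.refl F, g.toLinearMap, g.bijective, ?_⟩
  rw [h₁, h₂]
  ext x
  constructor
  · rintro ⟨y, hy, rfl⟩
    have := hg ⟨y, hy⟩
    change g y ∈ P₂.submodule
    rw [← show ((e ⟨y, hy⟩ : P₂.submodule) : Fin 2 → F) = g y from this]
    exact (e ⟨y, hy⟩).2
  · intro hx
    refine ⟨(e.symm ⟨x, hx⟩ : P₁.submodule), (e.symm ⟨x, hx⟩).2, ?_⟩
    have := hg (e.symm ⟨x, hx⟩)
    change g (e.symm ⟨x, hx⟩ : P₁.submodule) = x
    rw [← this]; simp

end Main

/-- **Theorem.** Let `|F| = 2 ^ n` and let `U₁, U₂` be `𝔽₂`-subspaces of `F²`, each defining an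
`i`-club. If `U₁` and `U₂` are not `ΓL(2, F)`-equivalent, then for all admissible `v₁, v₂` the
translation KM-arcs `𝒜(U₁, v₁)` and `𝒜(U₂, v₂)` are not `PΓL(3, F)`-equivalent. -/
theorem result {F : Type*} [Field F] [Fintype F] [Algebra (ZMod 2) F] (n i : ℕ)
    (hF : Fintype.card F = 2 ^ n) (U₁ U₂ : Submodule (ZMod 2) (Fin 2 → F))
    (hU₁ : IsClub n i U₁) (hU₂ : IsClub n i U₂) (hne : ¬ GammaLEquivalent U₁ U₂)
    (v₁ v₂ : Fin 3 → F)
    (hv₁ : v₁ ∉ Submodule.span F (emb F '' (U₁ : Set (Fin 2 → F))))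
    (hv₂ : v₂ ∉ Submodule.span F (emb F '' (U₂ : Set (Fin 2 → F)))) :
    ¬ PGammaLEquivalent (kmArc U₁ v₁) (kmArc U₂ v₂) := by
  rintro ⟨σ, f, hf, himage⟩
  apply hne
  by_cases hspan : Submodule.span F (U₁ : Set (Fin 2 → F)) = ⊤ ∧
      Submodule.span F (U₂ : Set (Fin 2 → F)) = ⊤
  · obtain ⟨hs₁, hs₂⟩ := hspan
    -- the admissible vectors lie off the line `X₂ = 0`
    have hv : ∀ (U : Submodule (ZMod 2) (Fin 2 → F)) (v : Fin 3 → F),
        Submodule.span F (U : Set (Fin 2 → F)) = ⊤ →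
        v ∉ Submodule.span F (emb F '' (U : Set (Fin 2 → F))) → v 2 ≠ 0 := by
      intro U v hs hv h
      apply hv
      obtain ⟨w, rfl⟩ := exists_emb h
      rw [Submodule.span_image, hs]
      exact Submodule.mem_map_of_mem Submodule.mem_top
    have hv₁' := hv U₁ v₁ hs₁ hv₁
    have hv₂' := hv U₂ v₂ hs₂ hv₂
    have hcard : ∀ U : Submodule (ZMod 2) (Fin 2 → F), Module.finrank (ZMod 2) U = n →
        Nat.card U = Nat.card F := by
      intro U hU
      rw [Module.natCard_eq_pow_finrank (K := ZMod 2) (V := U), hU, Nat.card_eq_fintype_card,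
        Nat.card_eq_fintype_card, hF, ZMod.card]
    have hSL : SL σ f := ⟨hf, fun x y => map_add f x y, fun a x => by
      rw [LinearMap.map_smulₛₗ]; rfl⟩
    refine main (hcard U₁ hU₁.1) (hcard U₂ hU₂.1) hs₁ hv₁' hv₂' hSL ?_
    intro x
    by_cases hx : x = 0
    · subst hx
      rw [map_zero]
      constructor
      · intro h; exact absurd rfl (h.ne_zero hv₁')
      · intro h; exact absurd rfl (h.ne_zero hv₂')
    have hfx : f x ≠ 0 := fun h => hx (hf.injective (by rw [h, map_zero]))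
    rw [← mem_kmArc U₁ v₁ hv₁' x hx, ← mem_kmArc U₂ v₂ hv₂' (f x) hfx, ← himage]
    constructor
    · intro h
      exact ⟨_, h, Projectivization.map_mk f hf.injective x hx⟩
    · rintro ⟨Q, hQ, hQx⟩
      induction Q using Projectivization.ind with
      | h y hy =>
        rw [Projectivization.map_mk, Projectivization.mk_eq_mk_iff'] at hQx
        obtain ⟨a, ha⟩ := hQx
        have : Projectivization.mk F x hx = Projectivization.mk F y hy := by
          symm
          rw [Projectivization.mk_eq_mk_iff']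
          refine ⟨σ.symm a, hf.injective ?_⟩
          rw [LinearMap.map_smulₛₗ, ← ha]
          simp
        rw [this]; exact hQ
  · -- now `U₁`, `U₂` are `n`-clubs, that is, `F`-lines
    have hi : i = n := by
      rw [not_and_or] at hspan
      rcases hspan with h | h
      · exact hU₁.eq_of_span_ne_top h
      · exact hU₂.eq_of_span_ne_top h
    subst hi
    obtain ⟨P₁, hP₁⟩ := hU₁.eq_submodule hF
    obtain ⟨P₂, hP₂⟩ := hU₂.eq_submodule hF
    exact gammaL_of_lines hP₁ hP₂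

end Pool.Agent.Results.MP_5fce70_co.KMArcEquiv
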